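import Pool.Agent.Lib.MP_d55432_al.G2.H93.RegHit

/-!
# G2, module EXREG: the map for the regular rays has all possible values
-/

namespace Pool.Agent.Lib.MP_d55432_al.G2.H93

open Matrix LieAlgebra

attribute [local instance 100] LieRing.ofAssociativeRing

variable {K : Type*} [Field K]

theorem qq_fb (m : K) (p : PT K 3) : qq (fb m p) = kk0 m * ft p ^ 2 + fA p ^ 2 * fz m p := by
  have h : qq (fb m p) = (fB1 p ^ 3) ^ 2 * qq (p.1 1) + fB1 p ^ 3 * fY m p * bb (p.1 1) (p.1 0) +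
      fY m p ^ 2 * qq (p.1 0) := qq_lc _ _ _ _
  rw [h, bb_comm, ft, fz]
  change (fB1 p ^ 3) ^ 2 * qq (p.1 1) + fB1 p ^ 3 * fY m p * fB1 p + fY m p ^ 2 * fA p = _
  rw [fY, fz0]
  ring

theorem bb_as1 (a c d : V7 K) : bb a (as3 a c d) = 0 := by
  simp only [bb, as3, br, Pi.add_apply, Matrix.cons_val_zero, Matrix.cons_val_one, Matrix.cons_val]
  ring

theorem bb_as2 (a c d : V7 K) : bb c (as3 a c d) = 0 := by
  simp only [bb, as3, br, Pi.add_apply, Matrix.cons_val_zero, Matrix.cons_val_one, Matrix.cons_val]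
  ring

theorem bb_as3 (a c d : V7 K) : bb (br a c) (as3 a c d) = 0 := by
  simp only [bb, as3, br, Pi.add_apply, Matrix.cons_val_zero, Matrix.cons_val_one, Matrix.cons_val]
  ring

theorem bb_neg_right (x y : V7 K) : bb x (-y) = -bb x y := by
  simp [bb]
  ring

theorem br_br_neg (x y z : V7 K) : br x (-br y z) = -br x (br y z) := by
  rw [← neg_one_smul K, br_smul_right, neg_one_smul]

theorem orth1 (p : PT K 3) : bb (p.1 0) (fl p) = 0 := bb_as1 _ _ _

theorem orth2 (m : K) (p : PT K 3) : bb (fb m p) (fl p) = 0 := by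
  rw [fb, bb_comm, bb_add_right, bb_smul_right, bb_smul_right, bb_comm, bb_comm _ (p.1 0), fl,
    bb_as1, bb_as2, mul_zero, mul_zero, add_zero]

theorem orth3 (m : K) (p : PT K 3) : bb (br (p.1 0) (fb m p)) (fl p) = 0 := by
  rw [fb, br_add_right, br_smul_right, br_smul_right, br_self, smul_zero, add_zero, bb_comm,
    bb_smul_right, bb_comm, fl, bb_as3, mul_zero]

section alg

variable {a b l : V7 K} {A B C : K}

theorem bb_n_cmb (ha : qq a = A) (hab : bb a b = B) (h1 : bb a l = 0) (h2 : bb b l = 0)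
    (h3 : bb (br a b) l = 0) (c₀ c₁ c₂ c₃ : K) : bb (br a b) (cmb a b l c₀ c₁ c₂ c₃) = 0 := by
  rw [bb_br, br_cmb_a ha hab h1 h2 h3, bb_b_cmb h2 h3, neg_zero]

theorem bb_span (ha : qq a = A) (hab : bb a b = B) (h1 : bb a l = 0) (h2 : bb b l = 0)
    (h3 : bb (br a b) l = 0) (c₀ c₁ c₂ c₃ x y z : K) :
    bb (cmb a b l c₀ c₁ c₂ c₃) (x • a + y • b + z • br a b) = 0 := by
  rw [bb_add_right, bb_add_right, bb_smul_right, bb_smul_right, bb_smul_right, bb_comm _ a,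
    bb_comm _ b, bb_comm _ (br a b), bb_a_cmb ha hab h1 h2 h3, bb_b_cmb h2 h3,
    bb_n_cmb ha hab h1 h2 h3]
  ring

theorem wv_eq : wv A B a b = B • a + (-A) • b + (0 : K) • br a b := by
  rw [wv]
  module

theorem fv_eq (m t : K) : fv m A B C t a b = (B ^ 2 - 2 * A * C) • a + (-(A * B)) • b +
    (kk1 m * t * A) • br a b := by
  rw [fv]
  module

theorem bb_wf (m t : K) (ha : qq a = A) (hab : bb a b = B) (hb : qq b = C) :
    bb (wv A B a b) (fv m A B C t a b) = 0 := by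
  have hba : bb b a = B := by rw [bb_comm, hab]
  have haa : bb a a = 2 * A := by rw [bb_self, ha]
  have hbb : bb b b = 2 * C := by rw [bb_self, hb]
  have h1 : bb a (br a b) = 0 := bb_br_self a b
  have h2 : bb b (br a b) = 0 := by rw [br_swap b a, bb_neg_right, bb_br_self, neg_zero]
  have e : ∀ x : V7 K, bb x (fv m A B C t a b) =
      (B ^ 2 - 2 * A * C) * bb x a + (-(A * B)) * bb x b + (kk1 m * t * A) * bb x (br a b) := by
    intro x
    rw [fv_eq, bb_add_right, bb_add_right, bb_smul_right, bb_smul_right, bb_smul_right]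
  rw [bb_comm, wv_eq, bb_add_right, bb_add_right, bb_smul_right, bb_smul_right, bb_smul_right,
    bb_comm _ a, bb_comm _ b, e, e, haa, hab, hba, hbb, h1, h2]
  ring

theorem br_wf (m t : K) (ha : qq a = A) (hab : bb a b = B) (hb : qq b = C) :
    ∃ x y z : K, br (wv A B a b) (fv m A B C t a b) = x • a + y • b + z • br a b := by
  have hba : bb b a = B := by rw [bb_comm, hab]
  have e1 : br a (br a b) = (4 * A) • b - (2 * B) • a := by rw [br_br, ha, hab]
  have e2 : br b (br a b) = -((4 * C) • a - (2 * B) • b) := by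
    rw [br_swap b a, br_br_neg, br_br, hb, hba]
  refine ⟨B * (kk1 m * t * A) * (-(2 * B)) + A * (kk1 m * t * A) * (4 * C),
    B * (kk1 m * t * A) * (4 * A) - A * (kk1 m * t * A) * (2 * B),
    B * (-(A * B)) + A * (B ^ 2 - 2 * A * C), ?_⟩
  rw [wv_eq, fv_eq]
  simp only [br_add_left, br_add_right, br_smul_left, br_smul_right, br_self, e1, e2, zero_smul,
    add_zero, smul_zero, zero_add, br_swap a b]
  module

end alg

/-- `C = qq b`. -/
def fC (m : K) (p : PT K 3) : K := kk0 m * ft p ^ 2 + fA p ^ 2 * fz m p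

/-- The first orthogonal vector. -/
def fw (m : K) (p : PT K 3) : V7 K := wv (fA p) (fB m p) (p.1 0) (fb m p)

/-- The second orthogonal vector. -/
def ff (m : K) (p : PT K 3) : V7 K := fv m (fA p) (fB m p) (fC m p) (ft p) (p.1 0) (fb m p)

/-- The kernel vector. -/
def fe (m : K) (p : PT K 3) : V7 K :=
  ev m (fA p) (fB m p) (fC m p) (ft p) (p.1 0) (fb m p) (fl p)

/-- The polynomial which is not zero at the generic point. -/
def fd (m : K) (p : PT K 3) : K := fA p * (qq (fw m p) * (qq (ff m p) * qq (fe m p)))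

section

variable (hD : DER_S K)

include hD

theorem sC (m : K) : SC (n := 3) 14 (fC m) :=
  (((st hD).pow 2).smul (kk0 m)).add (((sA hD).pow 2).mul (sz hD m))

theorem vw (m : K) : VC (n := 3) 9 (fw m) :=
  ((VC.smul (sB hD m) (VC.coord 0)).congr (by norm_num)).sub
    ((VC.smul (sA hD) (vb hD m)).congr (by norm_num))

theorem vf (m : K) : VC (n := 3) 17 (ff m) := by
  have h1 : SC (n := 3) 16 (fun p => fB m p ^ 2 - 2 * fA p * fC m p) := by
    refine (((sB hD m).pow 2).congr (by norm_num)).sub ?_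
    simp only [mul_assoc]
    exact (((sA hD).mul (sC hD m)).smul 2).congr (by norm_num)
  have h2 : SC (n := 3) 10 (fun p => fA p * fB m p) := ((sA hD).mul (sB hD m))
  have h3 : SC (n := 3) 9 (fun p => kk1 m * ft p * fA p) :=
    (((st hD).smul (kk1 m)).mul (sA hD))
  exact (((VC.smul h1 (VC.coord 0)).congr (by norm_num)).sub
    ((VC.smul h2 (vb hD m)).congr (by norm_num))).add
      ((VC.smul h3 ((VC.coord 0).br (vb hD m))).congr (by norm_num))

theorem ve (m : K) : VC (n := 3) 20 (fe m) := by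
  have h0 : SC (n := 3) 17 (fun _ => (0 : K)) := by
    refine ⟨(PF K 3).zero_mem, fun _ _ _ _ => rfl, fun t p => by rw [mul_zero]⟩
  have h1 : SC (n := 3) 16 (fun p => 2 * (m - 1) * (fB m p ^ 2 - fA p * fC m p)) :=
    ((((sB hD m).pow 2).congr (by norm_num)).sub
      (((sA hD).mul (sC hD m)).congr (by norm_num))).smul (2 * (m - 1))
  have h2 : SC (n := 3) 10 (fun p => -(2 * (m - 1) * (fA p * fB m p))) :=
    (((sA hD).mul (sB hD m)).smul (2 * (m - 1))).neg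
  have h3 : SC (n := 3) 9 (fun p => m * (kk1 m * ft p) * fA p) :=
    (((st hD).smul (kk1 m)).smul m).mul (sA hD)
  exact vcmb hD m (d := 9) h0 h1 h2 h3

theorem fd_poly (m : K) : fd m ∈ PF K 3 :=
  (PF K 3).mul_mem (sA hD).poly ((PF K 3).mul_mem (SC.qq hD (vw hD m)).poly
    ((PF K 3).mul_mem (SC.qq hD (vf hD m)).poly (SC.qq hD (ve hD m)).poly))

/-- The generic value. -/
theorem gen_val [CharZero K] (hP : PTYPE_S K) {m : K} (hm : Reg 1 m) {p : PT K 3}
    (hp : fd m p ≠ 0) : ∃ s : K, s ≠ 0 ∧ Cj (s • TT 1 m) (fM m p) := by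
  rw [fd, mul_ne_zero_iff, mul_ne_zero_iff, mul_ne_zero_iff] at hp
  obtain ⟨hA, hw, hf, he⟩ := hp
  have ha : qq (p.1 0) = fA p := rfl
  have hab : bb (p.1 0) (fb m p) = fB m p := rfl
  have hb : qq (fb m p) = fC m p := qq_fb m p
  have h1 := orth1 p
  have h2 := orth2 m p
  have h3 := orth3 m p
  have hr := regid hD m (fz m p) (ft p) ha hab (C := fC m p) rfl hb h1 h2 h3
  have o1 : bb (fw m p) (ff m p) = 0 := bb_wf m (ft p) ha hab hb
  have o2 : bb (fe m p) (fw m p) = 0 := by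
    rw [fw, wv_eq]
    exact bb_span ha hab h1 h2 h3 _ _ _ _ _ _ _
  have o3 : bb (fe m p) (ff m p) = 0 := by
    rw [ff, fv_eq]
    exact bb_span ha hab h1 h2 h3 _ _ _ _ _ _ _
  have o4 : bb (fe m p) (br (fw m p) (ff m p)) = 0 := by
    obtain ⟨x, y, z, e⟩ := br_wf m (ft p) ha hab hb
    rw [fw, ff, e]
    exact bb_span ha hab h1 h2 h3 _ _ _ _ _ _ _
  obtain ⟨s, hs, g, h, H, e⟩ := hP 1 m (fe m p) (fw m p) (ff m p) o1 o2 o3 o4 he hw hf
  have hm1 : (1 : K) - m ≠ 0 := by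
    intro h0
    apply hm
    rw [h0]
    ring
  have hc : (2 * (1 - m) * fA p ^ 5) ≠ 0 :=
    mul_ne_zero (mul_ne_zero two_ne_zero hm1) (pow_ne_zero 5 hA)
  refine ⟨-((2 * (1 - m) * fA p ^ 5)⁻¹ * s), neg_ne_zero.2 (mul_ne_zero (inv_ne_zero hc) hs),
    g, h, H, ?_⟩
  have hr' : (2 * (1 - m) * fA p ^ 5) • fM m p = -(g * (s • TT 1 m) * h) := by
    rw [← e]
    exact hr
  have hM : fM m p = (2 * (1 - m) * fA p ^ 5)⁻¹ • -(g * (s • TT 1 m) * h) := by
    rw [← hr', smul_smul, inv_mul_cancel₀ hc, one_smul]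
  rw [hM, Matrix.mul_smul, Matrix.smul_mul, Matrix.mul_smul, Matrix.smul_mul, ← smul_neg,
    smul_smul, smul_neg, ← neg_smul]

end

/-- The point which shows that `fd` is not zero. -/
def pg (m α : K) : PT K 3 := (![ee 1 + α • ee 0, ee 4 + kk0 m • ee 1, ee 2 + ee 5], 1)

theorem va (α : K) : ee 1 + α • ee 0 = ![α, 1, 0, 0, 0, 0, 0] := by
  funext i
  fin_cases i <;> simp [ee]

theorem vk (k : K) : ee 4 + k • ee 1 = ![0, k, 0, 0, 1, 0, 0] := by
  funext i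
  fin_cases i <;> simp [ee]

theorem as3_pg (k α : K) : as3 (ee 1 + α • ee 0) (ee 4 + k • ee 1) (ee 2 + ee 5) =
    ![0, 0, 6, 12 * α, 0, -6, 12 * (α * k)] := by
  funext i
  fin_cases i <;> simp [as3, br, ee] <;> ring

theorem qq_e_pg (m k α : K) :
    qq (ev m (α ^ 2) 1 k 1 (ee 1 + α • ee 0) (ee 4 + k • ee 1)
      ![0, 0, 6, 12 * α, 0, -6, 12 * (α * k)]) =
      -(576 * α ^ 6 * k * (1 - 4 * α ^ 2 * k) * (m ^ 2 * kk1 m ^ 2 - (m - 1) ^ 2 * k)) := by
  rw [va, vk]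
  have e1 : br ![α, 1, 0, 0, 0, 0, 0] ![0, 0, 6, 12 * α, 0, -6, 12 * (α * k)] =
      ![0, 0, 12 * α, 24 * α ^ 2, 0, -12 * α, 12 - 24 * α ^ 2 * k] := by
    funext i
    fin_cases i <;> simp [br] <;> ring
  have e2 : br ![0, k, 0, 0, 1, 0, 0] ![0, 0, 6, 12 * α, 0, -6, 12 * (α * k)] =
      ![0, 0, 24 * α * k, 12, 0, -24 * α * k, 12 * k] := by
    funext i
    fin_cases i <;> simp [br] <;> ring
  have e3 : br ![0, k, 0, 0, 1, 0, 0]
      ![0, 0, 12 * α, 24 * α ^ 2, 0, -12 * α, 12 - 24 * α ^ 2 * k] =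
      ![0, 0, 24 - 48 * α ^ 2 * k, 24 * α, 0, -48 * α ^ 2 * k, 24 * α * k] := by
    funext i
    fin_cases i <;> simp [br] <;> ring
  rw [ev, cmb, e1, e2, e3]
  simp only [qq, Pi.add_apply, Pi.smul_apply, smul_eq_mul, Matrix.cons_val_zero,
    Matrix.cons_val_one, Matrix.cons_val]
  ring

theorem qq_w_pg (k α : K) : qq (wv (α ^ 2) 1 (ee 1 + α • ee 0) (ee 4 + k • ee 1)) =
    α ^ 4 * k := by
  rw [va, vk]
  simp [wv, qq]
  ring

theorem qq_f_pg (m k α : K) :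
    qq (fv m (α ^ 2) 1 k 1 (ee 1 + α • ee 0) (ee 4 + k • ee 1)) =
      (1 - 4 * α ^ 2 * k) * α ^ 4 * (kk1 m ^ 2 - k) := by
  rw [va, vk]
  simp [fv, qq, br]
  ring

theorem fd_pg (m α : K) : fd m (pg m α) = α ^ 2 * (α ^ 4 * kk0 m *
    ((1 - 4 * α ^ 2 * kk0 m) * α ^ 4 * (kk1 m ^ 2 - kk0 m) *
      -(576 * α ^ 6 * kk0 m * (1 - 4 * α ^ 2 * kk0 m) *
        (m ^ 2 * kk1 m ^ 2 - (m - 1) ^ 2 * kk0 m)))) := by
  have e0 : (pg m α).1 0 = ee 1 + α • ee 0 := rfl
  have e1 : (pg m α).1 1 = ee 4 + kk0 m • ee 1 := rfl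
  have e2 : (pg m α).1 2 = ee 2 + ee 5 := rfl
  have e3 : (pg m α).2 = 1 := rfl
  have hA : fA (pg m α) = α ^ 2 := by
    rw [fA, e0]; simp [qq, ee]
  have hB1 : fB1 (pg m α) = 1 := by
    rw [fB1, e0, e1]; simp [bb, ee]
  have hz0 : fz0 m (pg m α) = 0 := by
    rw [fz0, e1, e3]; simp [qq, ee]
  have hY : fY m (pg m α) = 0 := by
    rw [fY, hz0, hA]; ring
  have hb : fb m (pg m α) = ee 4 + kk0 m • ee 1 := by
    rw [fb, hB1, hY, e1, one_pow, one_smul, zero_smul, add_zero]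
  have hB : fB m (pg m α) = 1 := by
    rw [fB, hb, e0]; simp [bb, ee]
  have hz : fz m (pg m α) = 0 := by
    rw [fz, hz0, hA]; ring
  have ht : ft (pg m α) = 1 := by
    rw [ft, hB1, e3]; ring
  have hC : fC m (pg m α) = kk0 m := by
    rw [fC, ht, hz]; ring
  rw [fd, fw, ff, fe, hA, hB, hC, ht, hb, fl, e0, e1, e2, as3_pg, qq_e_pg, qq_w_pg, qq_f_pg]

/-- The generic polynomial is not zero. -/
theorem fd_ne [CharZero K] {m : K} (hm : Reg 1 m) : ∃ p, fd m p ≠ 0 := by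
  simp only [Reg, ne_eq, mul_eq_zero, not_or] at hm
  obtain ⟨⟨⟨⟨⟨-, h1⟩, h2⟩, h3⟩, h4⟩, h5⟩ := hm
  have h2' : -1 - m ≠ 0 := by
    intro h; apply h2; linear_combination -h
  have hk1 : kk1 m ≠ 0 := mul_ne_zero h3 h2'
  have hk0 : kk0 m ≠ 0 := by
    rw [kk0]
    exact mul_ne_zero (mul_ne_zero (by rwa [mul_one] at h4) h1) hk1
  have q1 : kk1 m ^ 2 - kk0 m ≠ 0 := by
    have : kk1 m ^ 2 - kk0 m = -(kk1 m * (1 + 2 * m)) := by
      rw [kk0, kk1]; ring
    rw [this]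
    exact neg_ne_zero.2 (mul_ne_zero hk1 h5)
  have q2 : m ^ 2 * kk1 m ^ 2 - (m - 1) ^ 2 * kk0 m ≠ 0 := by
    have : m ^ 2 * kk1 m ^ 2 - (m - 1) ^ 2 * kk0 m = -(2 * (kk1 m * (m * (1 - m)))) := by
      rw [kk0, kk1]; ring
    rw [this]
    exact neg_ne_zero.2 (mul_ne_zero two_ne_zero (mul_ne_zero hk1 (mul_ne_zero h1 h3)))
  have hα : ∃ α : K, α ≠ 0 ∧ 1 - 4 * α ^ 2 * kk0 m ≠ 0 := by
    by_cases h : 1 - 4 * (1 : K) ^ 2 * kk0 m = 0
    · refine ⟨2, two_ne_zero, ?_⟩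
      have e : 1 - 4 * (2 : K) ^ 2 * kk0 m = -3 := by linear_combination 4 * h
      rw [e]
      norm_num
    · exact ⟨1, one_ne_zero, h⟩
  obtain ⟨α, hα, hq⟩ := hα
  refine ⟨pg m α, ?_⟩
  rw [fd_pg]
  have h576 : (576 : K) ≠ 0 := by norm_num
  exact mul_ne_zero (pow_ne_zero _ hα) (mul_ne_zero (mul_ne_zero (pow_ne_zero _ hα) hk0)
    (mul_ne_zero (mul_ne_zero (mul_ne_zero hq (pow_ne_zero _ hα)) q1) (neg_ne_zero.2
      (mul_ne_zero (mul_ne_zero (mul_ne_zero (mul_ne_zero h576 (pow_ne_zero _ hα)) hk0) hq) q2))))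

/-- EXREG. -/
theorem exreg (K : Type*) [Field K] [CharZero K] (hD : DER_S K) (hP : PTYPE_S K) : EXREG_S K := by
  intro m hm
  refine ⟨3, 62, fun a y => ⟨fM m (a, y), fM_mem hD m (a, y)⟩,
    (mM hD m).isCov (by norm_num) (fM_mem hD m), ?_, ?_, ?_⟩
  · intro g hg hz a y
    have h := generic_vanish (M := fun p : PT K 3 => (⟨fM m p, fM_mem hD m p⟩ : g2 K))
      (mM hD m).poly (fd_poly hD m) (fd_ne hm) hg (fun p hp => hz _ (gen_val hD hP hm hp)) (a, y)
    exact h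
  · obtain ⟨p, hp⟩ := fd_ne hm
    exact ⟨p.1, p.2, gen_val hD hP hm hp⟩
  · intro r hr _
    obtain ⟨p, h1, h2, h3⟩ := hits hm r hr
    exact ⟨p.1, p.2, fun h => h1 (congrArg Subtype.val h), h2, h3⟩

end Pool.Agent.Lib.MP_d55432_al.G2.H93
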