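import Pool.Agent.Lib.MP_d55432_al.G2.H14.NRM
import Pool.Agent.Lib.MP_d55432_al.G2.H17.Nila
import Pool.Agent.Lib.MP_d55432_al.G2.H17.Only
import Pool.Agent.Lib.MP_d55432_al.G2.H19.Tau
import Pool.Agent.Lib.MP_d55432_al.G2.H20.Inv
import Pool.Agent.Lib.MP_d55432_al.G2.H22.Mult
import Pool.Agent.Lib.MP_d55432_al.G2.H3.Semi
import Pool.Agent.Lib.MP_d55432_al.G2.H3.Simple
import Pool.Agent.Lib.MP_d55432_al.G2.H38.NILD
import Pool.Agent.Lib.MP_d55432_al.G2.H4.EXA
import Pool.Agent.Lib.MP_d55432_al.G2.H4.FRAME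
import Pool.Agent.Lib.MP_d55432_al.G2.H5.Aut
import Pool.Agent.Lib.MP_d55432_al.G2.H6.Weyl
import Pool.Agent.Lib.MP_d55432_al.G2.H47.Main
import Pool.Agent.Lib.MP_d55432_al.G2.H61.Nil
import Pool.Agent.Lib.MP_d55432_al.G2.H64.EXW1
import Pool.Agent.Lib.MP_d55432_al.G2.H67.EXW2
import Pool.Agent.Lib.MP_d55432_al.G2.H70.DER
import Pool.Agent.Lib.MP_d55432_al.G2.H70.PARAM
import Pool.Agent.Lib.MP_d55432_al.G2.H72.Ptype
import Pool.Agent.Lib.MP_d55432_al.G2.H75.Diag
import Pool.Agent.Lib.MP_d55432_al.G2.H76.Dense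
import Pool.Agent.Lib.MP_d55432_al.G2.H82.Cons
import Pool.Agent.Lib.MP_d55432_al.G2.H82.Lift
import Pool.Agent.Lib.MP_d55432_al.G2.H84.NILC
import Pool.Agent.Lib.MP_d55432_al.G2.H87.WALL
import Pool.Agent.Lib.MP_d55432_al.G2.H88.Exist
import Pool.Agent.Lib.MP_d55432_al.G2.H88.Flag
import Pool.Agent.Lib.MP_d55432_al.G2.H93.ExReg
import Pool.Agent.Lib.MP_d55432_al.G2.H94.CH
import Pool.Agent.Lib.MP_d55432_al.G2.H97.RD

/-!
# G2: all statements discharged
-/

namespace Pool.Agent.Lib.MP_d55432_al.G2.AllM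

variable (K : Type*) [Field K] [IsAlgClosed K] [CharZero K]

theorem param : PARAM_S K := H70.param K
theorem der : DER_S K := H70.der K
theorem frame' : FRAME_S K := frame K
theorem tau' : TAU_S K := H19.tau K (param K) (der K)
theorem flag : FLAG_S K := H88.flag K (frame' K)
theorem diag : DIAG_S K := H75.diag K (frame' K) (param K) (der K)
theorem semi : SEMI_S K := H3.semi K (tau' K)
theorem simple : SIMPLE_S K := H3.simple K (param K)
theorem weyl : WEYL_S K := H6.weyl K
theorem aut : AUT_S K := H5.aut K (param K) (semi K) (diag K) (weyl K)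
theorem inv : INV_S K := H20.inv K
theorem ch : CH_S K := H94.ch (simple K) (semi K) (diag K) (inv K)
theorem rd : RD_S K := H97.rd K (diag K) (inv K) (weyl K) (ch K)
theorem nila : NILA_S K := H17.nila K (frame' K) (param K)
theorem nilc' : NILC_S K := nilc K (flag K) (param K)
theorem nild : NILD_S K := H38.nild K (param K)
theorem nil' : NIL_S K := nil K (nila K) (nilc' K) (nild K) (flag K) (der K)
theorem dense : DENSE_S K :=
  H76.dense K (H14.nrm K) (semi K) (diag K) (inv K) (simple K)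
theorem wall : WALL_S K := H87.wall (inv K) (rd K)
theorem only : ONLY_S K := H17.Only.only K (param K) (simple K) (semi K) (diag K) (weyl K)
  (inv K) (dense K) (rd K) (wall K) (nil' K)
theorem cons : CONS_S K := H82.cons K (inv K) (rd K) (nil' K) (aut K)
theorem lift : LIFT_S K := H82.lift K (tau' K) (aut K)
theorem ptype : PTYPE_S K := H72.ptype K (frame' K) (der K)
theorem exw1 : EXW1_S K := H64.exw1 K (der K) (frame' K) (weyl K)
theorem exa' : EXA_S K := exa K (der K) (exw1 K)
theorem exw2 : EXW2_S K := H67.exw2 K (der K) (ptype K)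
theorem exreg : EXREG_S K := H93.exreg K (der K) (ptype K)
theorem exist : EXIST_S K := H88.exist K (exa' K) (exw2 K) (exreg K) (weyl K)
theorem main : MAIN_S K :=
  H47.main K (simple K) (only K) (cons K) (exist K) (lift K) (nil' K)
theorem mult : MULT_S K :=
  H22.mult K (der K) (tau' K) (aut K) (exw1 K) (nil' K) (simple K)

end Pool.Agent.Lib.MP_d55432_al.G2.AllM
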