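import Pool.Agent.Lib.MP_d55432_al.G2.Iface
import Pool.Agent.Lib.MP_d55432_al.G2.H5.AutA

/-!
# G2: similarity in place of conjugacy by automorphisms, and the dimension
-/

namespace Pool.Agent.Lib.MP_d55432_al.G2.H93

open Matrix LieAlgebra

attribute [local instance 100] LieRing.ofAssociativeRing

variable {K : Type*} [Field K]

theorem sim_pow {P Q : M7 K} (h : P * Q = 1) (D : M7 K) (n : ℕ) :
    (P * D * Q) ^ n = P * D ^ n * Q := by
  have h' : Q * P = 1 := mul_eq_one_comm.1 h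
  induction n with
  | zero => rw [pow_zero, pow_zero, Matrix.mul_one, h]
  | succ n ih =>
    rw [pow_succ, ih, pow_succ]
    calc P * D ^ n * Q * (P * D * Q) = P * D ^ n * (Q * P) * D * Q := by
          simp only [Matrix.mul_assoc]
      _ = P * (D ^ n * D) * Q := by rw [h', Matrix.mul_one]; simp only [Matrix.mul_assoc]

theorem sim_trace {P Q : M7 K} (h : P * Q = 1) (D : M7 K) : (P * D * Q).trace = D.trace := by
  have h' : Q * P = 1 := mul_eq_one_comm.1 h
  rw [Matrix.trace_mul_comm, ← Matrix.mul_assoc, h', Matrix.one_mul]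

theorem sim_s2 {P Q : M7 K} (h : P * Q = 1) (D : M7 K) : s2 (P * D * Q) = s2 D := by
  have e := sim_pow h D 2
  rw [pow_two, pow_two] at e
  rw [s2, s2, e, sim_trace h]

theorem sim_s6 {P Q : M7 K} (h : P * Q = 1) (D : M7 K) : s6 (P * D * Q) = s6 D := by
  rw [s6, s6, sim_s2 h, sim_pow h, sim_trace h]

theorem sim_isDiag {P Q : M7 K} (h : P * Q = 1) (d : Fin 7 → K) :
    IsDiag (P * Matrix.diagonal d * Q) := by
  have h' : Q * P = 1 := mul_eq_one_comm.1 h
  rw [IsDiag, eq_top_iff]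
  intro v _
  have hv : v = ∑ i, (Q *ᵥ v) i • (P *ᵥ Pi.single i (1 : K)) := by
    have e : ∑ i, (Q *ᵥ v) i • (Pi.single i (1 : K) : Fin 7 → K) = Q *ᵥ v := by
      funext j
      simp [Finset.sum_apply, Pi.single_apply]
    calc v = P *ᵥ (Q *ᵥ v) := by rw [mulVec_mulVec, h, one_mulVec]
      _ = P *ᵥ (∑ i, (Q *ᵥ v) i • (Pi.single i (1 : K) : Fin 7 → K)) := by rw [e]
      _ = _ := by
        rw [Matrix.mulVec_sum]
        simp only [Matrix.mulVec_smul]
  rw [hv]
  refine Submodule.sum_mem _ fun i _ => Submodule.smul_mem _ _ ?_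
  refine Submodule.mem_iSup_of_mem (d i) ?_
  rw [Module.End.mem_eigenspace_iff, Matrix.toLin'_apply, mulVec_mulVec]
  have e : P * Matrix.diagonal d * Q * P = P * Matrix.diagonal d := by
    rw [Matrix.mul_assoc, h', Matrix.mul_one]
  rw [e, ← mulVec_mulVec, Matrix.diagonal_mulVec_single, ← Matrix.mulVec_smul]
  congr 1
  funext j
  by_cases hj : j = i
  · subst hj; simp
  · simp [Pi.single_apply, hj]

theorem smul_TT (s l m : K) : s • TT l m = TT (s * l) (s * m) := by
  rw [TT, TT, ← Matrix.diagonal_smul]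
  congr 1
  funext i
  fin_cases i <;> simp <;> ring

/-- Conjugacy is similarity for semisimple elements. -/
theorem cj_iff (hP : PARAM_S K) (hR : RD_S K) {X : M7 K} (hX : X ∈ g2 K) (l m s : K) :
    Cj (s • TT l m) X ↔ ∃ P Q : M7 K, P * Q = 1 ∧ X = P * (s • TT l m) * Q := by
  constructor
  · rintro ⟨g, h, H, e⟩
    exact ⟨g, h, H.1, e⟩
  · rintro ⟨P, Q, h, e⟩
    have hT : s • TT l m ∈ g2 K := (g2 K).smul_mem s ((hP _).2 ⟨_, TT_eq l m⟩)
    have hd : s • TT l m = Matrix.diagonal (s • ![0, l, m, -l - m, -l, -m, l + m]) := by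
      rw [TT, Matrix.diagonal_smul]
    refine hR.1 _ hT X hX ?_ ?_ ?_ ?_
    · have := sim_isDiag (P := (1 : M7 K)) (Q := 1) (Matrix.mul_one 1)
        (s • ![0, l, m, -l - m, -l, -m, l + m])
      rw [Matrix.one_mul, Matrix.mul_one] at this
      rw [hd]
      exact this
    · rw [e, hd]
      exact sim_isDiag h _
    · rw [e, sim_s2 h]
    · rw [e, sim_s6 h]

/-- The dimension. -/
theorem finrank_g2 (hP : PARAM_S K) : Module.finrank K (g2 K) = 14 := by
  have e : (Fin 14 → K) ≃ₗ[K] g2 K := by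
    refine LinearEquiv.ofBijective
      { toFun := fun f => ⟨gM f, (hP _).2 ⟨f, rfl⟩⟩
        map_add' := fun f g => Subtype.ext (H5.gM_add f g)
        map_smul' := fun c f => Subtype.ext (H5.gM_smul c f) } ⟨?_, ?_⟩
    · intro f g h
      exact H5.gM_inj (congrArg Subtype.val h)
    · intro X
      obtain ⟨f, hf⟩ := (hP _).1 X.2
      exact ⟨f, Subtype.ext hf.symm⟩
  rw [← e.finrank_eq, Module.finrank_fin_fun]

end Pool.Agent.Lib.MP_d55432_al.G2.H93
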