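import Pool.Agent.Lib.MP_d55432_al.G2.H93.AllM
import Pool.Agent.Lib.MP_d55432_al.G2.H93.Ray

/-!
# G2: the final statement for a Lie algebra equal to `g2 K`
-/

namespace Pool.Agent.Lib.MP_d55432_al.G2.H93

open Matrix Pool.Agent.Lib.MP_d55432_al

attribute [local instance 100] LieRing.ofAssociativeRing

/-- The set attached to `(l, m)` and `T` in a Lie algebra of matrices. -/
def raySetL {K : Type*} [Field K] (L : LieSubalgebra K (Matrix (Fin 7) (Fin 7) K)) (l m : K)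
    (T : Set ℕ) : Set L :=
  {X | X = 0 ∨
    (∃ (s : K) (P Q : Matrix (Fin 7) (Fin 7) K), s ≠ 0 ∧ P * Q = 1 ∧
      (X : Matrix (Fin 7) (Fin 7) K) =
        P * (s • Matrix.diagonal ![0, l, m, -l - m, -l, -m, l + m]) * Q) ∨
    (X ≠ 0 ∧ (X : Matrix (Fin 7) (Fin 7) K) ^ 7 = 0 ∧
      ((X : Matrix (Fin 7) (Fin 7) K) * (X : Matrix (Fin 7) (Fin 7) K)).rank ∈ T)}

theorem raySetL_eq {K : Type*} [Field K] [IsAlgClosed K] [CharZero K] (l m : K) (T : Set ℕ) :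
    raySetL (g2 K) l m T = RS K l m T := by
  ext X
  refine or_congr Iff.rfl (or_congr ?_ Iff.rfl)
  constructor
  · rintro ⟨s, P, Q, hs, h, e⟩
    exact ⟨s, hs, (cj_iff (AllM.param K) (AllM.rd K) X.2 l m s).2 ⟨P, Q, h, e⟩⟩
  · rintro ⟨s, hs, h⟩
    obtain ⟨P, Q, h, e⟩ := (cj_iff (AllM.param K) (AllM.rd K) X.2 l m s).1 h
    exact ⟨s, P, Q, hs, h, e⟩

theorem final {K : Type*} [Field K] [IsAlgClosed K] [CharZero K]
    (L : LieSubalgebra K (Matrix (Fin 7) (Fin 7) K)) (hL : L = g2 K) :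
    (LieAlgebra.IsSimple K L ∧ Module.finrank K L = 14) ∧
    (∀ S : Set L,
      (∃ (m d : ℕ) (p : FreeLieAlgebra K (Fin m)), IsHomogeneousLie d p ∧
        S = lieImage L p) ↔
      (S = {0} ∨
        (∃ (l m : K) (T : Set ℕ), (l ≠ 0 ∨ m ≠ 0) ∧ T ⊆ {0, 1, 2, 5} ∧
          (5 ∈ T → l * m * (l + m) * (l - m) * (2 * l + m) * (l + 2 * m) ≠ 0) ∧
          S = raySetL L l m T) ∨
        ((0 : L) ∈ S ∧ (∀ (t : K), ∀ x ∈ S, t • x ∈ S) ∧
          (∀ φ : L ≃ₗ⁅K⁆ L, ∀ x ∈ S, φ x ∈ S) ∧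
          BoolComb (PolyOn K L : Set (L → K)) S ∧
          ∀ g ∈ PolyOn K L, (∀ y ∈ S, g y = 0) → ∀ y, g y = 0))) ∧
    (∃ (m : ℕ) (p : FreeLieAlgebra K (Fin m)), IsMultilinearLie p ∧
      raySetL L 1 1 {0, 1, 2} = lieImage L p) := by
  subst hL
  refine ⟨⟨AllM.simple K, finrank_g2 (AllM.param K)⟩, fun S => ?_, ?_⟩
  · refine (AllM.main K S).trans ?_
    simp only [raySetL_eq]
    constructor
    · rintro (h | ⟨h0, h1, h2, h3, h4⟩ | h)
      · exact Or.inl h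
      · exact Or.inr (Or.inr ⟨h0, h1, h2, h3, h4⟩)
      · exact Or.inr (Or.inl h)
    · rintro (h | h | ⟨h0, h1, h2, h3, h4⟩)
      · exact Or.inl h
      · exact Or.inr (Or.inr h)
      · exact Or.inr (Or.inl ⟨h0, h1, h2, h3, h4⟩)
  · rw [raySetL_eq]
    exact AllM.mult K

end Pool.Agent.Lib.MP_d55432_al.G2.H93
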