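import Pool.Agent.Lib.MP_d55432_al.G2.Reg
import Pool.Agent.Lib.MP_d55432_al.G2.Iface2

/-!
# G2, module EXREG: the map for the regular rays
-/

namespace Pool.Agent.Lib.MP_d55432_al.G2.H93

open Matrix LieAlgebra

attribute [local instance 100] LieRing.ofAssociativeRing

variable {K : Type*} [Field K]

section defs

/-- `A = qq a`. -/
def fA (p : PT K 3) : K := qq (p.1 0)

/-- `B₁ = bb a c`. -/
def fB1 (p : PT K 3) : K := bb (p.1 0) (p.1 1)

/-- `z₀ = k₀ y ^ 2 - qq c`. -/
def fz0 (m : K) (p : PT K 3) : K := kk0 m * p.2 ^ 2 - qq (p.1 1)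

/-- The coefficient of `a` in `b`. -/
def fY (m : K) (p : PT K 3) : K := fB1 p ^ 2 * fz0 m p - fA p * fz0 m p ^ 2

/-- The vector `b`. -/
def fb (m : K) (p : PT K 3) : V7 K := fB1 p ^ 3 • p.1 1 + fY m p • p.1 0

/-- `B = bb a b`. -/
def fB (m : K) (p : PT K 3) : K := bb (p.1 0) (fb m p)

/-- The parameter `t`. -/
def ft (p : PT K 3) : K := fB1 p ^ 3 * p.2

/-- The parameter `z`. -/
def fz (m : K) (p : PT K 3) : K := -2 * (fB1 p ^ 2 * fz0 m p ^ 3) + fA p * fz0 m p ^ 4

/-- The vector orthogonal to the quaternion algebra. -/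
def fl (p : PT K 3) : V7 K := as3 (p.1 0) (p.1 1) (p.1 2)

/-- The map. -/
def fM (m : K) (p : PT K 3) : M7 K :=
  FF m (fA p) (fB m p) (fz m p) (ft p) (p.1 0) (fb m p) (fl p)

end defs

section cov

variable (hD : DER_S K)

include hD

theorem sA : SC (n := 3) 2 (fA (K := K)) := SC.qq hD (VC.coord 0)

theorem sB1 : SC (n := 3) 2 (fB1 (K := K)) := SC.bb hD (VC.coord 0) (VC.coord 1)

theorem sz0 (m : K) : SC (n := 3) 2 (fz0 m) :=
  ((SC.scalar.pow 2).smul (kk0 m)).sub (SC.qq hD (VC.coord 1))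

theorem sY (m : K) : SC (n := 3) 6 (fY m) :=
  (((sB1 hD).pow 2).mul (sz0 hD m)).sub ((sA hD).mul ((sz0 hD m).pow 2))

theorem vb (m : K) : VC (n := 3) 7 (fb m) :=
  (VC.smul ((sB1 hD).pow 3) (VC.coord 1)).add (VC.smul (sY hD m) (VC.coord 0))

theorem sB (m : K) : SC (n := 3) 8 (fB m) := SC.bb hD (VC.coord 0) (vb hD m)

theorem st : SC (n := 3) 7 (ft (K := K)) := ((sB1 hD).pow 3).mul SC.scalar

theorem sz (m : K) : SC (n := 3) 10 (fz m) :=
  ((((sB1 hD).pow 2).mul ((sz0 hD m).pow 3)).smul (-2)).add ((sA hD).mul ((sz0 hD m).pow 4))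

omit hD in
theorem vl : VC (n := 3) 3 (fl (K := K)) := (VC.coord 0).as3 (VC.coord 1) (VC.coord 2)

/-- A polynomial in the four invariants. -/
theorem s_of (m : K) (F : K → K → K → K → K) (d : ℕ)
    (hF : ∀ s A B z t, F (s ^ 2 * A) (s ^ 8 * B) (s ^ 10 * z) (s ^ 7 * t) = s ^ d * F A B z t)
    (hp : (fun p : PT K 3 => F (fA p) (fB m p) (fz m p) (ft p)) ∈ PF K 3) :
    SC d (fun p : PT K 3 => F (fA p) (fB m p) (fz m p) (ft p)) where
  poly := hp
  inv g h H p := by rw [(sA hD).inv g h H, (sB hD m).inv g h H, (sz hD m).inv g h H,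
    (st hD).inv g h H]
  homog s p := by rw [(sA hD).homog, (sB hD m).homog, (sz hD m).homog, (st hD).homog, hF]

theorem sc0 (m : K) : SC 58 (fun p : PT K 3 => c0 m (fA p) (fB m p) (fz m p) (ft p)) := by
  refine s_of hD m (fun A B z t => c0 m A B z t) 58 (fun s A B z t => ?_) ?_
  · simp only [c0]
    ring
  have hA := (sA hD).poly
  have hB := (sB hD m).poly
  have hz := (sz hD m).poly
  have ht := (st hD).poly
  have hm : (fun _ : PT K 3 => m) ∈ PF K 3 := (PF K 3).algebraMap_mem m
  have e : (fun p : PT K 3 => c0 m (fA p) (fB m p) (fz m p) (ft p)) =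
      c0 (fun _ => m) fA (fB m) (fz m) ft := by
    funext p
    simp [c0]
  change (fun p : PT K 3 => c0 m (fA p) (fB m p) (fz m p) (ft p)) ∈ PF K 3
  rw [e, c0]
  repeat' first
    | exact hA
    | exact hB
    | exact hz
    | exact ht
    | exact hm
    | exact ofNat_mem _ _
    | exact one_mem _
    | apply add_mem
    | apply sub_mem
    | apply mul_mem
    | apply pow_mem
    | apply neg_mem

theorem sc1 (m : K) : SC 57 (fun p : PT K 3 => c1 m (fA p) (fB m p) (fz m p) (ft p)) := by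
  refine s_of hD m (fun A B z t => c1 m A B z t) 57 (fun s A B z t => ?_) ?_
  · simp only [c1]
    ring
  have hA := (sA hD).poly
  have hB := (sB hD m).poly
  have hz := (sz hD m).poly
  have ht := (st hD).poly
  have hm : (fun _ : PT K 3 => m) ∈ PF K 3 := (PF K 3).algebraMap_mem m
  have e : (fun p : PT K 3 => c1 m (fA p) (fB m p) (fz m p) (ft p)) =
      c1 (fun _ => m) fA (fB m) (fz m) ft := by
    funext p
    simp [c1]
  change (fun p : PT K 3 => c1 m (fA p) (fB m p) (fz m p) (ft p)) ∈ PF K 3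
  rw [e, c1]
  repeat' first
    | exact hA
    | exact hB
    | exact hz
    | exact ht
    | exact hm
    | exact ofNat_mem _ _
    | exact one_mem _
    | apply add_mem
    | apply sub_mem
    | apply mul_mem
    | apply pow_mem
    | apply neg_mem

theorem sc2 (m : K) : SC 51 (fun p : PT K 3 => c2 m (fA p) (fB m p) (fz m p) (ft p)) := by
  refine s_of hD m (fun A B z t => c2 m A B z t) 51 (fun s A B z t => ?_) ?_
  · simp only [c2]
    ring
  have hA := (sA hD).poly
  have hB := (sB hD m).poly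
  have hz := (sz hD m).poly
  have ht := (st hD).poly
  have hm : (fun _ : PT K 3 => m) ∈ PF K 3 := (PF K 3).algebraMap_mem m
  have e : (fun p : PT K 3 => c2 m (fA p) (fB m p) (fz m p) (ft p)) =
      c2 (fun _ => m) fA (fB m) (fz m) ft := by
    funext p
    simp [c2]
  change (fun p : PT K 3 => c2 m (fA p) (fB m p) (fz m p) (ft p)) ∈ PF K 3
  rw [e, c2]
  repeat' first
    | exact hA
    | exact hB
    | exact hz
    | exact ht
    | exact hm
    | exact ofNat_mem _ _
    | exact one_mem _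
    | apply add_mem
    | apply sub_mem
    | apply mul_mem
    | apply pow_mem
    | apply neg_mem

theorem sc3 (m : K) : SC 50 (fun p : PT K 3 => c3 m (fA p) (fB m p) (fz m p) (ft p)) := by
  refine s_of hD m (fun A B z t => c3 m A B z t) 50 (fun s A B z t => ?_) ?_
  · simp only [c3]
    ring
  have hA := (sA hD).poly
  have hB := (sB hD m).poly
  have hz := (sz hD m).poly
  have ht := (st hD).poly
  have hm : (fun _ : PT K 3 => m) ∈ PF K 3 := (PF K 3).algebraMap_mem m
  have e : (fun p : PT K 3 => c3 m (fA p) (fB m p) (fz m p) (ft p)) =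
      c3 (fun _ => m) fA (fB m) (fz m) ft := by
    funext p
    simp [c3]
  change (fun p : PT K 3 => c3 m (fA p) (fB m p) (fz m p) (ft p)) ∈ PF K 3
  rw [e, c3]
  repeat' first
    | exact hA
    | exact hB
    | exact hz
    | exact ht
    | exact hm
    | exact ofNat_mem _ _
    | exact one_mem _
    | apply add_mem
    | apply sub_mem
    | apply mul_mem
    | apply pow_mem
    | apply neg_mem

theorem sc4 (m : K) : SC 52 (fun p : PT K 3 => c4 m (fA p) (fB m p) (fz m p) (ft p)) := by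
  refine s_of hD m (fun A B z t => c4 m A B z t) 52 (fun s A B z t => ?_) ?_
  · simp only [c4]
    ring
  have hA := (sA hD).poly
  have hB := (sB hD m).poly
  have hz := (sz hD m).poly
  have ht := (st hD).poly
  have hm : (fun _ : PT K 3 => m) ∈ PF K 3 := (PF K 3).algebraMap_mem m
  have e : (fun p : PT K 3 => c4 m (fA p) (fB m p) (fz m p) (ft p)) =
      c4 (fun _ => m) fA (fB m) (fz m) ft := by
    funext p
    simp [c4]
  change (fun p : PT K 3 => c4 m (fA p) (fB m p) (fz m p) (ft p)) ∈ PF K 3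
  rw [e, c4]
  repeat' first
    | exact hA
    | exact hB
    | exact hz
    | exact ht
    | exact hm
    | exact ofNat_mem _ _
    | exact one_mem _
    | apply add_mem
    | apply sub_mem
    | apply mul_mem
    | apply pow_mem
    | apply neg_mem

theorem sc5 (m : K) : SC 51 (fun p : PT K 3 => c5 m (fA p) (fB m p) (fz m p) (ft p)) := by
  refine s_of hD m (fun A B z t => c5 m A B z t) 51 (fun s A B z t => ?_) ?_
  · simp only [c5]
    ring
  have hA := (sA hD).poly
  have hB := (sB hD m).poly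
  have hz := (sz hD m).poly
  have ht := (st hD).poly
  have hm : (fun _ : PT K 3 => m) ∈ PF K 3 := (PF K 3).algebraMap_mem m
  have e : (fun p : PT K 3 => c5 m (fA p) (fB m p) (fz m p) (ft p)) =
      c5 (fun _ => m) fA (fB m) (fz m) ft := by
    funext p
    simp [c5]
  change (fun p : PT K 3 => c5 m (fA p) (fB m p) (fz m p) (ft p)) ∈ PF K 3
  rw [e, c5]
  repeat' first
    | exact hA
    | exact hB
    | exact hz
    | exact ht
    | exact hm
    | exact ofNat_mem _ _
    | exact one_mem _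
    | apply add_mem
    | apply sub_mem
    | apply mul_mem
    | apply pow_mem
    | apply neg_mem

theorem sc6 (m : K) : SC 45 (fun p : PT K 3 => c6 m (fA p) (fB m p) (fz m p) (ft p)) := by
  refine s_of hD m (fun A B z t => c6 m A B z t) 45 (fun s A B z t => ?_) ?_
  · simp only [c6]
    ring
  have hA := (sA hD).poly
  have hB := (sB hD m).poly
  have hz := (sz hD m).poly
  have ht := (st hD).poly
  have hm : (fun _ : PT K 3 => m) ∈ PF K 3 := (PF K 3).algebraMap_mem m
  have e : (fun p : PT K 3 => c6 m (fA p) (fB m p) (fz m p) (ft p)) =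
      c6 (fun _ => m) fA (fB m) (fz m) ft := by
    funext p
    simp [c6]
  change (fun p : PT K 3 => c6 m (fA p) (fB m p) (fz m p) (ft p)) ∈ PF K 3
  rw [e, c6]
  repeat' first
    | exact hA
    | exact hB
    | exact hz
    | exact ht
    | exact hm
    | exact ofNat_mem _ _
    | exact one_mem _
    | apply add_mem
    | apply sub_mem
    | apply mul_mem
    | apply pow_mem
    | apply neg_mem

theorem sc7 (m : K) : SC 44 (fun p : PT K 3 => c7 m (fA p) (fB m p) (fz m p) (ft p)) := by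
  refine s_of hD m (fun A B z t => c7 m A B z t) 44 (fun s A B z t => ?_) ?_
  · simp only [c7]
    ring
  have hA := (sA hD).poly
  have hB := (sB hD m).poly
  have hz := (sz hD m).poly
  have ht := (st hD).poly
  have hm : (fun _ : PT K 3 => m) ∈ PF K 3 := (PF K 3).algebraMap_mem m
  have e : (fun p : PT K 3 => c7 m (fA p) (fB m p) (fz m p) (ft p)) =
      c7 (fun _ => m) fA (fB m) (fz m) ft := by
    funext p
    simp [c7]
  change (fun p : PT K 3 => c7 m (fA p) (fB m p) (fz m p) (ft p)) ∈ PF K 3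
  rw [e, c7]
  repeat' first
    | exact hA
    | exact hB
    | exact hz
    | exact ht
    | exact hm
    | exact ofNat_mem _ _
    | exact one_mem _
    | apply add_mem
    | apply sub_mem
    | apply mul_mem
    | apply pow_mem
    | apply neg_mem

theorem vcmb (m : K) {d : ℕ} {φ₀ φ₁ φ₂ φ₃ : PT K 3 → K} (h0 : SC (d + 8) φ₀) (h1 : SC (d + 7) φ₁)
    (h2 : SC (d + 1) φ₂) (h3 : SC d φ₃) :
    VC (d + 11) (fun p => cmb (p.1 0) (fb m p) (fl p) (φ₀ p) (φ₁ p) (φ₂ p) (φ₃ p)) := by
  refine VC.add (VC.add (VC.add ((VC.smul h0 vl).congr ?_) ((VC.smul h1 ((VC.coord 0).br vl)).congr ?_))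
    ((VC.smul h2 ((vb hD m).br vl)).congr ?_))
    ((VC.smul h3 ((vb hD m).br ((VC.coord 0).br vl))).congr ?_) <;> ring

theorem mM (m : K) : MC 62 (fM m) := by
  refine MC.add ((MC.DD hD (VC.coord 0) (vcmb hD m (d := 50) ?_ ?_ ?_ ?_)).congr ?_)
    ((MC.DD hD (vb hD m) (vcmb hD m (d := 44) ?_ ?_ ?_ ?_)).congr ?_)
  · exact (sc0 hD m).smul 4
  · exact (sc1 hD m).smul 2
  · exact (sc2 hD m).smul 2
  · exact sc3 hD m
  · ring
  · exact (sc4 hD m).smul 4
  · exact (sc5 hD m).smul 2
  · exact (sc6 hD m).smul 2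
  · exact sc7 hD m
  · ring

theorem fM_mem (m : K) (p : PT K 3) : fM m p ∈ g2 K :=
  (g2 K).add_mem (hD.1 _ _) (hD.1 _ _)

end cov

end Pool.Agent.Lib.MP_d55432_al.G2.H93
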