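import Pool.Agent.Lib.MP_d55432_al.G2.H93.RegEx
import Pool.Agent.Lib.MP_d55432_al.G2.H61.Nil

/-!
# G2, module EXREG: the nilpotent values
-/

namespace Pool.Agent.Lib.MP_d55432_al.G2.H93

open Matrix LieAlgebra

attribute [local instance 100] LieRing.ofAssociativeRing

variable {K : Type*} [Field K]

/-- The nilpotent matrices which occur. -/
def H3 (u v w : K) : M7 K := !![
  0, 0, 0, 0, 0, -w, 0;
  0, 0, u, v, 0, 0, 0;
  2 * w, 0, 0, 0, 0, 0, 0;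
  0, 0, 0, 0, 0, 0, 0;
  0, 0, 0, w, 0, 0, 0;
  0, 0, 0, 0, -u, 0, 0;
  0, -w, 0, 0, -v, 0, 0]

theorem H3_smul (c u v w : K) : c • H3 u v w = H3 (c * u) (c * v) (c * w) := by
  ext i j
  fin_cases i <;> fin_cases j <;> simp [H3]
  ring

theorem H3_add (u v w u' v' w' : K) : H3 u v w + H3 u' v' w' = H3 (u + u') (v + v') (w + w') := by
  ext i j
  fin_cases i <;> fin_cases j <;> simp [H3] <;> ring

theorem H3_sq (u v w : K) : H3 u v w * H3 u v w = !![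
  0, 0, 0, 0, u * w, 0, 0;
  2 * (u * w), 0, 0, 0, 0, 0, 0;
  0, 0, 0, 0, 0, -(2 * (w * w)), 0;
  0, 0, 0, 0, 0, 0, 0;
  0, 0, 0, 0, 0, 0, 0;
  0, 0, 0, -(u * w), 0, 0, 0;
  0, 0, -(u * w), -(2 * (v * w)), 0, 0, 0] := by
  ext i j
  fin_cases i <;> fin_cases j <;> simp [H3, Matrix.mul_apply, Fin.sum_univ_succ] <;> ring

theorem H3_p4 (u v w : K) : H3 u v w * H3 u v w * (H3 u v w * H3 u v w) = !![
  0, 0, 0, 0, 0, 0, 0;
  0, 0, 0, 0, 2 * (u * u * w * w), 0, 0;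
  0, 0, 0, 2 * (u * w * w * w), 0, 0, 0;
  0, 0, 0, 0, 0, 0, 0;
  0, 0, 0, 0, 0, 0, 0;
  0, 0, 0, 0, 0, 0, 0;
  0, 0, 0, 0, 0, 2 * (u * w * w * w), 0] := by
  rw [H3_sq]
  ext i j
  fin_cases i <;> fin_cases j <;> simp [Matrix.mul_apply, Fin.sum_univ_succ] <;> ring

theorem H3_p6 (u v w : K) : H3 u v w * H3 u v w * (H3 u v w * H3 u v w) *
    (H3 u v w * H3 u v w) = !![
  0, 0, 0, 0, 0, 0, 0;
  0, 0, 0, 0, 0, 0, 0;
  0, 0, 0, 0, 0, 0, 0;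
  0, 0, 0, 0, 0, 0, 0;
  0, 0, 0, 0, 0, 0, 0;
  0, 0, 0, 0, 0, 0, 0;
  0, 0, 0, -(2 * (u * u * w * w * w * w)), 0, 0, 0] := by
  rw [H3_p4, H3_sq]
  ext i j
  fin_cases i <;> fin_cases j <;> simp [Matrix.mul_apply, Fin.sum_univ_succ]
  ring

theorem H3_p7 (u v w : K) : H3 u v w ^ 7 = 0 := by
  have h : H3 u v w ^ 7 = H3 u v w * H3 u v w * (H3 u v w * H3 u v w) *
    (H3 u v w * H3 u v w) * H3 u v w := by
    simp only [pow_succ, pow_zero, Matrix.one_mul, Matrix.mul_assoc]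
  rw [h, H3_p6]
  ext i j
  fin_cases i <;> fin_cases j <;> simp [H3, Matrix.mul_apply, Fin.sum_univ_succ]

theorem rk0 (u : K) : (H3 u 0 0 * H3 u 0 0).rank = 0 := by
  have h : H3 u 0 0 * H3 u 0 0 = 0 := by
    rw [H3_sq]
    ext i j
    fin_cases i <;> fin_cases j <;> simp
  rw [h, Matrix.rank_zero]

theorem rk1 [CharZero K] {w : K} (hw : w ≠ 0) : (H3 0 0 w * H3 0 0 w).rank = 1 := by
  classical
  have h : H3 0 0 w * H3 0 0 w =
    Matrix.diagonal ![0, 0, -(2 * (w * w)), 0, 0, 0, 0] *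
      (Equiv.swap (2 : Fin 7) 5).permMatrix K := by
    rw [H3_sq]
    ext i j
    rw [Matrix.diagonal_mul]
    fin_cases i <;> fin_cases j <;> simp [Equiv.Perm.permMatrix, PEquiv.toMatrix_apply,
      Equiv.swap_apply_def]
  rw [h, H61.rank_mono, Fintype.card_subtype]
  have : (Finset.univ.filter fun i : Fin 7 =>
      (![0, 0, -(2 * (w * w)), 0, 0, 0, 0] : Fin 7 → K) i ≠ 0) = {2} := by
    ext i
    fin_cases i <;> simp [hw]
  rw [this]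
  rfl

theorem rk2 [CharZero K] {v w : K} (hv : v ≠ 0) (hw : w ≠ 0) :
    (H3 0 v w * H3 0 v w).rank = 2 := by
  classical
  have h : H3 0 v w * H3 0 v w =
    Matrix.diagonal ![0, 0, -(2 * (w * w)), 0, 0, 0, -(2 * (v * w))] *
      (Equiv.swap (2 : Fin 7) 5 * Equiv.swap 6 3).permMatrix K := by
    rw [H3_sq]
    ext i j
    rw [Matrix.diagonal_mul]
    fin_cases i <;> fin_cases j <;> simp [Equiv.Perm.permMatrix, PEquiv.toMatrix_apply,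
      Equiv.swap_apply_def]
  rw [h, H61.rank_mono, Fintype.card_subtype]
  have : (Finset.univ.filter fun i : Fin 7 =>
      (![0, 0, -(2 * (w * w)), 0, 0, 0, -(2 * (v * w))] : Fin 7 → K) i ≠ 0) = {2, 6} := by
    ext i
    fin_cases i <;> simp [hw, hv]
  rw [this]
  rfl

/-- A permutation of seven letters. -/
def sg5 : Equiv.Perm (Fin 7) :=
  ⟨![4, 0, 5, 1, 6, 3, 2], ![1, 3, 6, 5, 0, 2, 4], by decide, by decide⟩

theorem rk5 [CharZero K] {u w : K} (hu : u ≠ 0) (hw : w ≠ 0) :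
    (H3 u 0 w * H3 u 0 w).rank = 5 := by
  classical
  have h : H3 u 0 w * H3 u 0 w =
    Matrix.diagonal ![u * w, 2 * (u * w), -(2 * (w * w)), 0, 0, -(u * w), -(u * w)] *
      sg5.permMatrix K := by
    rw [H3_sq]
    ext i j
    rw [Matrix.diagonal_mul]
    fin_cases i <;> fin_cases j <;> simp [Equiv.Perm.permMatrix, PEquiv.toMatrix_apply, sg5]
  rw [h, H61.rank_mono, Fintype.card_subtype]
  have : (Finset.univ.filter fun i : Fin 7 =>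
      (![u * w, 2 * (u * w), -(2 * (w * w)), 0, 0, -(u * w), -(u * w)] : Fin 7 → K) i ≠ 0) =
        {0, 1, 2, 5, 6} := by
    ext i
    fin_cases i <;> simp [hw, hu]
  rw [this]
  rfl

/-- The value of the map at the special points. -/
theorem c_val (m : K) : c0 m 0 1 0 1 + c3 m 0 1 0 1 = 0 ∧ c1 m 0 1 0 1 + kk0 m * c5 m 0 1 0 1 = 0 ∧
    c2 m 0 1 0 1 = 0 ∧ c4 m 0 1 0 1 = 0 ∧ c6 m 0 1 0 1 = 0 ∧ c7 m 0 1 0 1 = 0 := by
  refine ⟨?_, ?_, ?_, ?_, ?_, ?_⟩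
  · simp only [c0, c3]; ring
  · simp only [c1, c5, kk0, kk1]; ring
  · simp only [c2]; ring
  · simp only [c4]; ring
  · simp only [c6]; ring
  · simp only [c7]; ring

theorem c0_ne [CharZero K] {m : K} (hm : Reg 1 m) : c0 m 0 1 0 1 ≠ 0 := by
  have e : c0 m 0 1 0 1 = -2 * (m ^ 2 * (1 + m) ^ 3 * (1 - m) ^ 3 * (2 * 1 + m) ^ 2 *
      (1 + 2 * m)) := by
    simp only [c0]; ring
  simp only [Reg, ne_eq, mul_eq_zero, not_or] at hm
  obtain ⟨⟨⟨⟨⟨-, h1⟩, h2⟩, h3⟩, h4⟩, h5⟩ := hm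
  rw [e]
  simp only [ne_eq, mul_eq_zero, pow_eq_zero_iff, not_or, OfNat.ofNat_ne_zero, not_false_eq_true,
    neg_eq_zero]
  exact ⟨trivial, ⟨⟨⟨h1, h2⟩, h3⟩, h4⟩, h5⟩

theorem c5_ne [CharZero K] {m : K} (hm : Reg 1 m) : c5 m 0 1 0 1 ≠ 0 := by
  have e : c5 m 0 1 0 1 = 6 * (m ^ 2 * (1 + m) ^ 3 * (1 - m) ^ 2 * (2 * 1 + m) *
      (1 + 2 * m)) := by
    simp only [c5]; ring
  simp only [Reg, ne_eq, mul_eq_zero, not_or] at hm
  obtain ⟨⟨⟨⟨⟨-, h1⟩, h2⟩, h3⟩, h4⟩, h5⟩ := hm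
  rw [e]
  simp only [ne_eq, mul_eq_zero, pow_eq_zero_iff, not_or, OfNat.ofNat_ne_zero, not_false_eq_true]
  exact ⟨trivial, ⟨⟨⟨h1, h2⟩, h3⟩, h4⟩, h5⟩

theorem cmb_a (k x y z p q r : K) : cmb (ee 1) (ee 4 + k • ee 1) ![0, 0, x, 0, 0, y, z] p q 0 r =
    ![0, 0, (p + 4 * r) * x, 0, 0, p * y, p * z + 2 * q * x] := by
  funext i
  fin_cases i <;> simp [cmb, br, ee] <;> ring

theorem DD_a (y z : K) : DD (ee 1) ![0, 0, 0, 0, 0, y, z] = H3 (6 * y) (6 * z) 0 := by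
  ext i j
  fin_cases i <;> fin_cases j <;>
    simp [DD, adM, br, ee, H3, Matrix.mul_apply, Fin.sum_univ_succ] <;> ring

theorem DD_b (k z : K) : DD (ee 4 + k • ee 1) ![0, 0, 0, 0, 0, 0, z] =
    H3 0 (6 * k * z) (2 * z) := by
  ext i j
  fin_cases i <;> fin_cases j <;>
    simp [DD, adM, br, ee, H3, Matrix.mul_apply, Fin.sum_univ_succ] <;> ring

theorem FF_val (m x y z : K) :
    FF m 0 1 0 1 (ee 1) (ee 4 + kk0 m • ee 1) ![0, 0, x, 0, 0, y, z] =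
      H3 (24 * c0 m 0 1 0 1 * y) (24 * c0 m 0 1 0 1 * z) (8 * c5 m 0 1 0 1 * x) := by
  obtain ⟨h1, h2, h3, h4, h5, h6⟩ := c_val m
  rw [FF, h3, h4, h5, h6, mul_zero, mul_zero, cmb_a, cmb_a]
  have e : (4 * c0 m 0 1 0 1 + 4 * c3 m 0 1 0 1) * x = 0 := by
    rw [← mul_add, h1, mul_zero, zero_mul]
  simp only [mul_zero, zero_mul, zero_add, add_zero]
  rw [e, DD_a, DD_b, H3_add]
  congr 1
  · ring
  · linear_combination 24 * x * h2
  · ring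

theorem as3_val (k x y z : K) : as3 (ee 1) (ee 4 + k • ee 1) ![0, 0, x, 0, 0, y, z] =
    ![0, 0, 6 * x, 0, 0, -(6 * y), -(6 * z)] := by
  funext i
  fin_cases i <;> simp [as3, br, ee] <;> ring

/-- The special points. -/
def pt (m x y z : K) : PT K 3 := (![ee 1, ee 4 + kk0 m • ee 1, ![0, 0, x, 0, 0, y, z]], 1)

theorem fM_pt (m x y z : K) : fM m (pt m x y z) =
    H3 (-(144 * c0 m 0 1 0 1 * y)) (-(144 * c0 m 0 1 0 1 * z)) (48 * c5 m 0 1 0 1 * x) := by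
  have e0 : (pt m x y z).1 0 = ee 1 := rfl
  have e1 : (pt m x y z).1 1 = ee 4 + kk0 m • ee 1 := rfl
  have e2 : (pt m x y z).1 2 = ![0, 0, x, 0, 0, y, z] := rfl
  have e3 : (pt m x y z).2 = 1 := rfl
  have hA : fA (pt m x y z) = 0 := by
    rw [fA, e0]; simp [qq, ee]
  have hB1 : fB1 (pt m x y z) = 1 := by
    rw [fB1, e0, e1]; simp [bb, ee]
  have hz0 : fz0 m (pt m x y z) = 0 := by
    rw [fz0, e1, e3]; simp [qq, ee]
  have hY : fY m (pt m x y z) = 0 := by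
    rw [fY, hz0, hA]; ring
  have hb : fb m (pt m x y z) = ee 4 + kk0 m • ee 1 := by
    rw [fb, hB1, hY, e1, one_pow, one_smul, zero_smul, add_zero]
  have hB : fB m (pt m x y z) = 1 := by
    rw [fB, hb, e0]; simp [bb, ee]
  have hz : fz m (pt m x y z) = 0 := by
    rw [fz, hz0, hA]; ring
  have ht : ft (pt m x y z) = 1 := by
    rw [ft, hB1, e3]; ring
  rw [fM, hA, hB, hz, ht, hb, fl, e0, e1, e2, as3_val, FF_val]
  congr 1 <;> ring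

theorem H3_ne {u v w : K} (h : u ≠ 0 ∨ w ≠ 0) : H3 u v w ≠ 0 := by
  intro h0
  rcases h with h | h
  · exact h (by simpa [H3] using congrFun (congrFun h0 1) 2)
  · exact h (by simpa [H3] using congrFun (congrFun h0 4) 3)

/-- The nilpotent values. -/
theorem hits [CharZero K] {m : K} (hm : Reg 1 m) : ∀ r ∈ ({0, 1, 2, 5} : Set ℕ),
    ∃ p : PT K 3, fM m p ≠ 0 ∧ fM m p ^ 7 = 0 ∧ (fM m p * fM m p).rank = r := by
  have h0 := c0_ne hm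
  have h5 := c5_ne hm
  have e : ∀ x y z u v w : K, -(144 * c0 m 0 1 0 1 * y) = u → -(144 * c0 m 0 1 0 1 * z) = v →
      48 * c5 m 0 1 0 1 * x = w → fM m (pt m x y z) = H3 u v w := by
    intro x y z u v w e1 e2 e3
    rw [fM_pt, e1, e2, e3]
  have n1 : -(144 * c0 m 0 1 0 1) ≠ 0 := neg_ne_zero.2 (mul_ne_zero (by norm_num) h0)
  have n2 : 48 * c5 m 0 1 0 1 ≠ 0 := mul_ne_zero (by norm_num) h5
  intro r hr
  simp only [Set.mem_insert_iff, Set.mem_singleton_iff] at hr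
  rcases hr with rfl | rfl | rfl | rfl
  · refine ⟨pt m 0 1 0, ?_⟩
    rw [e 0 1 0 (-(144 * c0 m 0 1 0 1)) 0 0 (by ring) (by ring) (by ring)]
    exact ⟨H3_ne (Or.inl n1), H3_p7 _ _ _, rk0 _⟩
  · refine ⟨pt m 1 0 0, ?_⟩
    rw [e 1 0 0 0 0 (48 * c5 m 0 1 0 1) (by ring) (by ring) (by ring)]
    exact ⟨H3_ne (Or.inr n2), H3_p7 _ _ _, rk1 n2⟩
  · refine ⟨pt m 1 0 1, ?_⟩
    rw [e 1 0 1 0 (-(144 * c0 m 0 1 0 1)) (48 * c5 m 0 1 0 1) (by ring) (by ring) (by ring)]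
    exact ⟨H3_ne (Or.inr n2), H3_p7 _ _ _, rk2 n1 n2⟩
  · refine ⟨pt m 1 1 0, ?_⟩
    rw [e 1 1 0 (-(144 * c0 m 0 1 0 1)) 0 (48 * c5 m 0 1 0 1) (by ring) (by ring) (by ring)]
    exact ⟨H3_ne (Or.inr n2), H3_p7 _ _ _, rk5 n1 n2⟩

end Pool.Agent.Lib.MP_d55432_al.G2.H93
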